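import Pool.Agent.Y6.G.Stm

/-! Project EP (helper6), job ARI2: a large rotated mode. -/

set_option autoImplicit false

namespace Pool.Agent.Y492.EP.Ari2

open Pool.Agent.Y6.M (Z3 Md nsq len)
open Pool.Agent.Y6.F (ln)
open Pool.Agent.Y6.G

/-! ### Integers -/

theorem F1 {n : ℕ} (hn : Odd n) {B x : ℤ} (h1 : -B ≤ x) (h2 : x ≤ B) :
    -B ^ n ≤ x ^ n ∧ x ^ n ≤ B ^ n := by
  have hm : Monotone fun y : ℤ => y ^ n := (Odd.strictMono_pow hn).monotone
  refine ⟨?_, hm h2⟩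
  have := hm h1
  simp only [hn.neg_pow] at this
  exact this

theorem self_le {n : ℕ} (hn : n ≠ 0) {x : ℤ} (hx : 0 ≤ x) : x ≤ x ^ n := by
  rcases hx.eq_or_lt with h | h
  · rw [← h, zero_pow hn]
  · exact le_self_pow₀ (by omega) hn

theorem F2 {n : ℕ} (hn : Odd n) {B x : ℤ} (h1 : -B ≤ x ^ n) (h2 : x ^ n ≤ B) :
    -B ≤ x ∧ x ≤ B := by
  have hn0 : n ≠ 0 := hn.pos.ne'
  rcases le_total 0 x with hx | hx
  · have e1 := self_le hn0 hx
    have e2 : 0 ≤ x ^ n := pow_nonneg hx n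
    omega
  · have e1 := self_le hn0 (neg_nonneg.2 hx)
    rw [hn.neg_pow] at e1
    have e2 : 0 ≤ (-x) ^ n := pow_nonneg (neg_nonneg.2 hx) n
    rw [hn.neg_pow] at e2
    omega

theorem gap0 {m : ℕ} {a b : ℤ} (hb : 0 ≤ b) (hab : b < a) :
    a ^ m ≤ a ^ (m + 1) - b ^ (m + 1) := by
  have h1 : b ^ m ≤ a ^ m := pow_le_pow_left₀ hb hab.le m
  have h2 : b ^ (m + 1) ≤ (a - 1) * a ^ m := by
    rw [pow_succ, mul_comm]
    exact mul_le_mul (by omega) h1 (pow_nonneg hb m) (by omega)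
  have h3 : a ^ (m + 1) = a * a ^ m := by rw [pow_succ, mul_comm]
  rw [h3]
  linarith [h2]

theorem step {m : ℕ} {a : ℤ} (ha : 0 ≤ a) : a ^ m ≤ a ^ (m + 1) ∨ (a = 0 ∧ m = 0) := by
  rcases ha.eq_or_lt with h | h
  · by_cases hm : m = 0
    · exact Or.inr ⟨h.symm, hm⟩
    · left
      rw [← h, zero_pow hm, zero_pow (by omega)]
  · left
    exact pow_le_pow_right₀ (by omega) (by omega)

/-- the gap between odd powers -/
theorem gap1 {m : ℕ} (hm : Even m) (hm0 : m ≠ 0) {x z : ℤ} (h : z < x) :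
    x ^ m ≤ x ^ (m + 1) - z ^ (m + 1) ∧ z ^ m ≤ x ^ (m + 1) - z ^ (m + 1) := by
  have ho : Odd (m + 1) := hm.add_one
  have hst : ∀ a : ℤ, 0 ≤ a → a ^ m ≤ a ^ (m + 1) := fun a ha => by
    rcases step (m := m) ha with h | h
    · exact h
    · exact absurd h.2 hm0
  rcases le_or_gt 0 z with hz | hz
  · have e1 := gap0 (m := m) hz h
    have e2 : z ^ m ≤ x ^ m := pow_le_pow_left₀ hz h.le m
    exact ⟨e1, e2.trans e1⟩
  · rcases le_or_gt 0 x with hx | hx
    · have e1 := hst x hx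
      have e2 := hst (-z) (by omega)
      rw [ho.neg_pow, hm.neg_pow] at e2
      have e3 : 0 ≤ x ^ (m + 1) := pow_nonneg hx _
      have e4 : 0 ≤ z ^ m := hm.pow_nonneg z
      have e5 : 0 ≤ x ^ m := hm.pow_nonneg x
      constructor <;> linarith
    · have e1 := gap0 (m := m) (a := -z) (b := -x) (by omega) (by omega)
      rw [ho.neg_pow, ho.neg_pow, hm.neg_pow] at e1
      have e2 : (-x) ^ m ≤ (-z) ^ m := pow_le_pow_left₀ (by omega) (by omega) m
      rw [hm.neg_pow, hm.neg_pow] at e2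
      constructor <;> linarith

theorem F3 {m : ℕ} (hm : Even m) (hm0 : m ≠ 0) {B x y : ℤ} (hxy : y ≠ -x)
    (h1 : -B ≤ x ^ (m + 1) + y ^ (m + 1)) (h2 : x ^ (m + 1) + y ^ (m + 1) ≤ B) :
    (-B ≤ x ∧ x ≤ B) ∧ (-B ≤ y ∧ y ≤ B) := by
  have ho : Odd (m + 1) := hm.add_one
  have key : x ^ m ≤ B ∧ y ^ m ≤ B := by
    rcases lt_trichotomy (-y) x with h | h | h
    · have := gap1 hm hm0 h
      rw [ho.neg_pow, hm.neg_pow] at this
      constructor <;> linarith [this.1, this.2]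
    · exact absurd (by omega) hxy
    · have := gap1 hm hm0 h
      rw [ho.neg_pow, hm.neg_pow] at this
      constructor <;> linarith [this.1, this.2]
  have aux : ∀ a : ℤ, a ^ m ≤ B → -B ≤ a ∧ a ≤ B := by
    intro a ha
    have e1 := self_le hm0 (abs_nonneg a)
    rw [hm.pow_abs] at e1
    exact abs_le.1 (e1.trans ha)
  exact ⟨aux x key.1, aux y key.2⟩

/-- on an axis or on a curve -/
def UU (n : ℕ) (p q r : ℤ) : Prop :=
  (q = 0 ∧ r = 0) ∨ (r = 0 ∧ p = 0) ∨ (p = 0 ∧ q = 0) ∨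
  (q = p ^ n ∧ r = 0) ∨ (r = q ^ n ∧ p = 0) ∨ (p = r ^ n ∧ q = 0)

/-- two vectors on the axes or curves, with small sum -/
theorem core {m : ℕ} (hm : Even m) (hm0 : m ≠ 0) {B p q r p' q' r' : ℤ} (hB : 1 ≤ B)
    (hu : UU (m + 1) p q r) (hw : UU (m + 1) p' q' r')
    (hp1 : -B ≤ p + p') (hp2 : p + p' ≤ B) (hq1 : -B ≤ q + q') (hq2 : q + q' ≤ B)
    (hr1 : -B ≤ r + r') (hr2 : r + r' ≤ B)
    (H : ¬ (p' = -p ∧ q' = -q ∧ r' = -r)) (A0 : ¬ (q = 0 ∧ r = 0 ∧ q' = 0 ∧ r' = 0))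
    (A1 : ¬ (r = 0 ∧ p = 0 ∧ r' = 0 ∧ p' = 0)) (A2 : ¬ (p = 0 ∧ q = 0 ∧ p' = 0 ∧ q' = 0)) :
    ((-(2 * B ^ (m + 1)) ≤ p ∧ p ≤ 2 * B ^ (m + 1)) ∧
      (-(2 * B ^ (m + 1)) ≤ q ∧ q ≤ 2 * B ^ (m + 1)) ∧
      (-(2 * B ^ (m + 1)) ≤ r ∧ r ≤ 2 * B ^ (m + 1))) ∧
    ((-(2 * B ^ (m + 1)) ≤ p' ∧ p' ≤ 2 * B ^ (m + 1)) ∧
      (-(2 * B ^ (m + 1)) ≤ q' ∧ q' ≤ 2 * B ^ (m + 1)) ∧
      (-(2 * B ^ (m + 1)) ≤ r' ∧ r' ≤ 2 * B ^ (m + 1))) := by
  have ho : Odd (m + 1) := hm.add_one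
  have hC : B ≤ B ^ (m + 1) := self_le (by omega) (by omega)
  have f1 : ∀ x : ℤ, -B ≤ x → x ≤ B → -B ^ (m + 1) ≤ x ^ (m + 1) ∧ x ^ (m + 1) ≤ B ^ (m + 1) :=
    fun x => F1 ho
  have f2 : ∀ x : ℤ, -B ≤ x ^ (m + 1) → x ^ (m + 1) ≤ B → -B ≤ x ∧ x ≤ B := fun x => F2 ho
  have f3 : ∀ x y : ℤ, y ≠ -x → -B ≤ x ^ (m + 1) + y ^ (m + 1) →
      x ^ (m + 1) + y ^ (m + 1) ≤ B → (-B ≤ x ∧ x ≤ B) ∧ (-B ≤ y ∧ y ≤ B) :=
    fun x y => F3 hm hm0
  have f4 : ∀ x : ℤ, (-x) ^ (m + 1) = -x ^ (m + 1) := fun x => ho.neg_pow x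
  generalize hg : (fun x : ℤ => x ^ (m + 1)) = g at *
  have hgx : ∀ x : ℤ, x ^ (m + 1) = g x := fun x => by rw [← hg]
  simp only [UU, hgx] at *
  have g0 : g 0 = 0 := by
    have := f4 0
    rw [neg_zero] at this
    omega
  generalize g B = D at *
  clear hg hgx
  have d1 := f3 p p'
  have d2 := f3 q q'
  have d3 := f3 r r'
  have e1 : p' = -p → g p' = -g p := fun h => by rw [h, f4]
  have e2 : q' = -q → g q' = -g q := fun h => by rw [h, f4]
  have e3 : r' = -r → g r' = -g r := fun h => by rw [h, f4]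
  clear f3 f4
  rcases hu with ⟨h1, h2⟩ | ⟨h1, h2⟩ | ⟨h1, h2⟩ | ⟨h1, h2⟩ | ⟨h1, h2⟩ | ⟨h1, h2⟩
  · rcases hw with ⟨k1, k2⟩ | ⟨k1, k2⟩ | ⟨k1, k2⟩ | ⟨k1, k2⟩ | ⟨k1, k2⟩ | ⟨k1, k2⟩
    · omega
    · omega
    · omega
    · have a1 := f1 p'; have a2 := f2 p'; clear d1 d2 d3 e1 e2 e3 f1 f2; omega
    · have a1 := f1 q'; have a2 := f2 q'; clear d1 d2 d3 e1 e2 e3 f1 f2; omega
    · have a1 := f1 r'; have a2 := f2 r'; clear d1 d2 d3 e1 e2 e3 f1 f2; omega
  · rcases hw with ⟨k1, k2⟩ | ⟨k1, k2⟩ | ⟨k1, k2⟩ | ⟨k1, k2⟩ | ⟨k1, k2⟩ | ⟨k1, k2⟩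
    · omega
    · omega
    · omega
    · have a1 := f1 p'; have a2 := f2 p'; clear d1 d2 d3 e1 e2 e3 f1 f2; omega
    · have a1 := f1 q'; have a2 := f2 q'; clear d1 d2 d3 e1 e2 e3 f1 f2; omega
    · have a1 := f1 r'; have a2 := f2 r'; clear d1 d2 d3 e1 e2 e3 f1 f2; omega
  · rcases hw with ⟨k1, k2⟩ | ⟨k1, k2⟩ | ⟨k1, k2⟩ | ⟨k1, k2⟩ | ⟨k1, k2⟩ | ⟨k1, k2⟩
    · omega
    · omega
    · omega
    · have a1 := f1 p'; have a2 := f2 p'; clear d1 d2 d3 e1 e2 e3 f1 f2; omega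
    · have a1 := f1 q'; have a2 := f2 q'; clear d1 d2 d3 e1 e2 e3 f1 f2; omega
    · have a1 := f1 r'; have a2 := f2 r'; clear d1 d2 d3 e1 e2 e3 f1 f2; omega
  · have a1 := f1 p
    have a2 := f2 p
    rcases hw with ⟨k1, k2⟩ | ⟨k1, k2⟩ | ⟨k1, k2⟩ | ⟨k1, k2⟩ | ⟨k1, k2⟩ | ⟨k1, k2⟩
    · clear d1 d2 d3 e1 e2 e3 f1 f2; omega
    · clear d1 d2 d3 e1 e2 e3 f1 f2; omega
    · clear d1 d2 d3 e1 e2 e3 f1 f2; omega
    · have a3 := f1 p'; have a4 := f2 p'; clear d2 d3 e2 e3 f1 f2 a2 a4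
      have hne : p' ≠ -p := fun h => H ⟨h, by have := e1 h; omega, by omega⟩
      have := d1 hne (by omega) (by omega)
      obtain ⟨⟨z1, z2⟩, z3, z4⟩ := this
      have := a1 z1 z2
      have := a3 z3 z4
      clear a1 a3 d1 e1
      omega
    · have a3 := f1 q'; have a4 := f2 q'; clear d1 d2 d3 e1 e2 e3 f1 f2; omega
    · have a3 := f1 r'; have a4 := f2 r'; clear d1 d2 d3 e1 e2 e3 f1 f2; omega
  · have a1 := f1 q
    have a2 := f2 q
    rcases hw with ⟨k1, k2⟩ | ⟨k1, k2⟩ | ⟨k1, k2⟩ | ⟨k1, k2⟩ | ⟨k1, k2⟩ | ⟨k1, k2⟩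
    · clear d1 d2 d3 e1 e2 e3 f1 f2; omega
    · clear d1 d2 d3 e1 e2 e3 f1 f2; omega
    · clear d1 d2 d3 e1 e2 e3 f1 f2; omega
    · have a3 := f1 p'; have a4 := f2 p'; clear d1 d2 d3 e1 e2 e3 f1 f2; omega
    · have a3 := f1 q'; have a4 := f2 q'; clear d1 d3 e1 e3 f1 f2 a2 a4
      have hne : q' ≠ -q := fun h => H ⟨by omega, h, by have := e2 h; omega⟩
      have := d2 hne (by omega) (by omega)
      obtain ⟨⟨z1, z2⟩, z3, z4⟩ := this
      have := a1 z1 z2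
      have := a3 z3 z4
      clear a1 a3 d2 e2
      omega
    · have a3 := f1 r'; have a4 := f2 r'; clear d1 d2 d3 e1 e2 e3 f1 f2; omega
  · have a1 := f1 r
    have a2 := f2 r
    rcases hw with ⟨k1, k2⟩ | ⟨k1, k2⟩ | ⟨k1, k2⟩ | ⟨k1, k2⟩ | ⟨k1, k2⟩ | ⟨k1, k2⟩
    · clear d1 d2 d3 e1 e2 e3 f1 f2; omega
    · clear d1 d2 d3 e1 e2 e3 f1 f2; omega
    · clear d1 d2 d3 e1 e2 e3 f1 f2; omega
    · have a3 := f1 p'; have a4 := f2 p'; clear d1 d2 d3 e1 e2 e3 f1 f2; omega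
    · have a3 := f1 q'; have a4 := f2 q'; clear d1 d2 d3 e1 e2 e3 f1 f2; omega
    · have a3 := f1 r'; have a4 := f2 r'; clear d1 d2 e1 e2 f1 f2 a2 a4
      have hne : r' ≠ -r := fun h => H ⟨by have := e3 h; omega, by omega, h⟩
      have := d3 hne (by omega) (by omega)
      obtain ⟨⟨z1, z2⟩, z3, z4⟩ := this
      have := a1 z1 z2
      have := a3 z3 z4
      clear a1 a3 d3 e3
      omega

/-! ### Vectors -/

theorem EZ_neg (s : Bool) (k : Z3) : EZ s (-k) = EZ s k := by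
  have ho : Odd 61 := by decide
  unfold EZ
  simp only [Pi.neg_apply, ho.neg_pow]
  split_ifs
  · ring
  · have e : ∀ a b : ℤ, (-a - -b) ^ 2 = (a - b) ^ 2 := fun a b => by ring
    simp only [e, neg_sq]

theorem sq0 {a b : ℤ} (h : a ^ 2 + b ^ 2 = 0) : a = 0 ∧ b = 0 := by
  have h1 := sq_nonneg a
  have h2 := sq_nonneg b
  constructor
  · exact pow_eq_zero_iff (two_ne_zero) |>.1 (by omega)
  · exact pow_eq_zero_iff (two_ne_zero) |>.1 (by omega)

theorem UU_of {s : Bool} {k : Z3} (h : EZ s k = 0) : UU (60 + 1) (k 0) (k 1) (k 2) := by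
  unfold EZ at h
  unfold UU
  have e61 : ∀ x : ℤ, x ^ (60 + 1) = x ^ 61 := fun x => rfl
  simp only [e61]
  split_ifs at h
  · rcases mul_eq_zero.1 h with h1 | h1
    · rcases mul_eq_zero.1 h1 with h2 | h2
      · have := sq0 h2; tauto
      · have := sq0 h2; tauto
    · have := sq0 h1; tauto
  · rcases mul_eq_zero.1 h with h1 | h1
    · rcases mul_eq_zero.1 h1 with h2 | h2
      · obtain ⟨a, b⟩ := sq0 h2
        have a' := sub_eq_zero.1 a
        tauto
      · obtain ⟨a, b⟩ := sq0 h2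
        have a' := sub_eq_zero.1 a
        tauto
    · obtain ⟨a, b⟩ := sq0 h1
      have a' := sub_eq_zero.1 a
      tauto

theorem nsq_eq (k : Z3) : nsq k = k 0 ^ 2 + k 1 ^ 2 + k 2 ^ 2 := by
  unfold nsq
  rw [Fin.sum_univ_three]

theorem nsq_nn (k : Z3) : 0 ≤ nsq k := by
  rw [nsq_eq]
  positivity

theorem nsq_neg (k : Z3) : nsq (-k) = nsq k := by
  rw [nsq_eq, nsq_eq]
  simp only [Pi.neg_apply, neg_sq]

theorem len_sq (k : Z3) : len k ^ 2 = (nsq k : ℝ) := by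
  unfold len
  exact Real.sq_sqrt (by exact_mod_cast nsq_nn k)

theorem len_nn (k : Z3) : 0 ≤ len k := Real.sqrt_nonneg _

theorem len_neg (k : Z3) : len (-k) = len k := by
  unfold len
  rw [nsq_neg]

theorem len_one {k : Z3} (hk : k ≠ 0) : 1 ≤ len k := by
  have h1 : 1 ≤ nsq k := by
    rw [nsq_eq]
    by_contra h
    apply hk
    have e0 := sq_nonneg (k 0)
    have e1 := sq_nonneg (k 1)
    have e2 := sq_nonneg (k 2)
    have f0 : k 0 = 0 := pow_eq_zero_iff two_ne_zero |>.1 (by omega)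
    have f1 : k 1 = 0 := pow_eq_zero_iff two_ne_zero |>.1 (by omega)
    have f2 : k 2 = 0 := pow_eq_zero_iff two_ne_zero |>.1 (by omega)
    funext j
    fin_cases j
    · exact f0
    · exact f1
    · exact f2
  unfold len
  rw [Real.one_le_sqrt]
  exact_mod_cast h1

theorem coord (k : Z3) (j : Fin 3) : (|k j| : ℝ) ≤ len k := by
  apply abs_le_of_sq_le_sq _ (len_nn k)
  rw [len_sq]
  have h : k j ^ 2 ≤ nsq k := by
    unfold nsq
    exact Finset.single_le_sum (f := fun j => k j ^ 2) (fun _ _ => sq_nonneg _)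
      (Finset.mem_univ j)
  exact_mod_cast h

/-- triangle inequality -/
theorem tri (k l : Z3) : len (k + l) ≤ len k + len l := by
  apply le_of_sq_le_sq _ (add_nonneg (len_nn k) (len_nn l))
  have h1 : ((k 0 : ℝ) * l 0 + k 1 * l 1 + k 2 * l 2) ≤ len k * len l := by
    apply le_of_sq_le_sq _ (mul_nonneg (len_nn k) (len_nn l))
    rw [mul_pow, len_sq, len_sq, nsq_eq, nsq_eq]
    push_cast
    nlinarith [sq_nonneg ((k 0 : ℝ) * l 1 - k 1 * l 0), sq_nonneg ((k 1 : ℝ) * l 2 - k 2 * l 1),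
      sq_nonneg ((k 2 : ℝ) * l 0 - k 0 * l 2)]
  have h2 : (nsq (k + l) : ℝ) = nsq k + nsq l +
      2 * ((k 0 : ℝ) * l 0 + k 1 * l 1 + k 2 * l 2) := by
    rw [nsq_eq, nsq_eq, nsq_eq]
    simp only [Pi.add_apply]
    push_cast
    ring
  rw [len_sq, h2, ← len_sq, ← len_sq]
  nlinarith

theorem len_le {k : Z3} {c : ℝ} (hc : 0 ≤ c) (h0 : |(k 0 : ℝ)| ≤ c) (h1 : |(k 1 : ℝ)| ≤ c)
    (h2 : |(k 2 : ℝ)| ≤ c) : len k ≤ 2 * c := by
  apply le_of_sq_le_sq _ (by linarith)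
  rw [len_sq, nsq_eq]
  push_cast
  have e0 := sq_le_sq' (neg_le_of_abs_le h0) (le_of_abs_le h0)
  have e1 := sq_le_sq' (neg_le_of_abs_le h1) (le_of_abs_le h1)
  have e2 := sq_le_sq' (neg_le_of_abs_le h2) (le_of_abs_le h2)
  nlinarith [sq_nonneg c]

/-- two vectors on the axes or curves are not much longer than their sum -/
theorem two {s t : Bool} {u w : Z3} (hu : EZ s u = 0) (hw : EZ t w = 0) (hn : npar u w) :
    len u ≤ (4 * len (u + w)) ^ 61 ∧ len w ≤ (4 * len (u + w)) ^ 61 := by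
  have hv : u + w ≠ 0 := by
    intro h
    apply hn
    have e : ∀ j, w j = -u j := fun j => by
      have := congrFun h j
      simp only [Pi.add_apply, Pi.zero_apply] at this
      omega
    rw [e 0, e 1, e 2]
    refine ⟨by ring, by ring, by ring⟩
  set K := len (u + w) with hK
  have hK1 : 1 ≤ K := len_one hv
  obtain ⟨B, hB, hBK⟩ : ∃ B : ℤ, (∀ j, |(u + w) j| ≤ B) ∧ (B : ℝ) ≤ K := by
    refine ⟨⌊K⌋, fun j => ?_, Int.floor_le K⟩
    rw [Int.le_floor]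
    push_cast
    exact coord (u + w) j
  have hB1 : 1 ≤ B := by
    by_contra h
    apply hv
    funext j
    have := hB j
    have h0 := abs_nonneg ((u + w) j)
    have : |(u + w) j| = 0 := by omega
    exact abs_eq_zero.1 this
  have c0 := abs_le.1 (hB 0)
  have c1 := abs_le.1 (hB 1)
  have c2 := abs_le.1 (hB 2)
  simp only [Pi.add_apply] at c0 c1 c2
  have key := core (m := 60) (by decide) (by norm_num) hB1 (UU_of hu) (UU_of hw) c0.1 c0.2 c1.1 c1.2
    c2.1 c2.2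
    (fun h => hn (by
      obtain ⟨h0, h1, h2⟩ := h
      rw [h0, h1, h2]
      refine ⟨by ring, by ring, by ring⟩))
    (fun h => hn (by
      obtain ⟨h0, h1, h2, h3⟩ := h
      rw [h0, h1, h2, h3]
      refine ⟨by ring, by ring, by ring⟩))
    (fun h => hn (by
      obtain ⟨h0, h1, h2, h3⟩ := h
      rw [h0, h1, h2, h3]
      refine ⟨by ring, by ring, by ring⟩))
    (fun h => hn (by
      obtain ⟨h0, h1, h2, h3⟩ := h
      rw [h0, h1, h2, h3]
      refine ⟨by ring, by ring, by ring⟩))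
  have hC0 : (0 : ℝ) ≤ 2 * (B : ℝ) ^ 61 := by
    have : (0 : ℝ) ≤ B := by exact_mod_cast (by omega : (0 : ℤ) ≤ B)
    positivity
  have fin : 2 * (2 * (B : ℝ) ^ 61) ≤ (4 * K) ^ 61 := by
    have hB0 : (0 : ℝ) ≤ B := by exact_mod_cast (by omega : (0 : ℤ) ≤ B)
    have e1 : (B : ℝ) ^ 61 ≤ K ^ 61 := pow_le_pow_left₀ hB0 hBK 61
    have e2 : (4 : ℝ) ≤ 4 ^ 61 := le_self_pow₀ (by norm_num) (by norm_num)
    have e3 : (0 : ℝ) ≤ K ^ 61 := by positivity
    rw [mul_pow]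
    calc 2 * (2 * (B : ℝ) ^ 61) = 4 * (B : ℝ) ^ 61 := by ring
      _ ≤ 4 * K ^ 61 := by linarith
      _ ≤ 4 ^ 61 * K ^ 61 := mul_le_mul_of_nonneg_right e2 e3
  have conv : ∀ x : ℤ, -(2 * B ^ (60 + 1)) ≤ x ∧ x ≤ 2 * B ^ (60 + 1) →
      |(x : ℝ)| ≤ 2 * (B : ℝ) ^ 61 := by
    intro x hx
    rw [abs_le]
    constructor
    · exact_mod_cast hx.1
    · exact_mod_cast hx.2
  exact ⟨(len_le hC0 (conv _ key.1.1) (conv _ key.1.2.1) (conv _ key.1.2.2)).trans fin,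
    (len_le hC0 (conv _ key.2.1) (conv _ key.2.2.1) (conv _ key.2.2.2)).trans fin⟩

/-- the claim for three vectors with sum zero -/
theorem three {s t : Bool} {u w v : Z3} (hv : v = u + w) (hv0 : v ≠ 0) (hn : npar u w)
    (h1 : EZ s u = 0 ∨ len u ≤ len v) (h2 : EZ t w = 0 ∨ len w ≤ len v)
    (h3 : (4 * len v) ^ 61 < max (len u) (len w) ∨ (4 * len v) ^ 61 < len v) : False := by
  have hK1 := len_one hv0
  have e1 : len v ≤ (4 * len v) ^ 61 := by
    have : 4 * len v ≤ (4 * len v) ^ 61 := le_self_pow₀ (by linarith) (by norm_num)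
    linarith
  rcases h3 with h3 | h3
  · have tu : len u ≤ len v + len w := by
      have := tri v (-w)
      rw [len_neg, hv] at this
      have e : u + w + -w = u := by abel
      rw [e, ← hv] at this
      exact this
    have tw : len w ≤ len v + len u := by
      have := tri v (-u)
      rw [len_neg, hv] at this
      have e : u + w + -u = w := by abel
      rw [e, ← hv] at this
      exact this
    have h4 : 4 * len v ≤ (4 * len v) ^ 61 := le_self_pow₀ (by linarith) (by norm_num)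
    have h5 : 2 * len v < len u ∧ 2 * len v < len w ∨ 3 * len v < len u ∨ 3 * len v < len w := by
      rcases lt_max_iff.1 h3 with h | h
      · right; left; linarith
      · right; right; linarith
    have hu : len v < len u := by
      rcases h5 with h | h | h
      · linarith [h.1]
      · linarith
      · linarith
    have hw : len v < len w := by
      rcases h5 with h | h | h
      · linarith [h.2]
      · linarith
      · linarith
    have hu' : EZ s u = 0 := h1.resolve_right (by linarith)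
    have hw' : EZ t w = 0 := h2.resolve_right (by linarith)
    have := two hu' hw' hn
    rw [← hv] at this
    exact absurd h3 (not_lt.2 (max_le this.1 this.2))
  · linarith

theorem t_ARI2 : S_ARI2 := by
  intro i a b hab hn hr
  by_contra hcon
  push Not at hcon
  have hlt : ∀ k : Md, (k = a ∨ k = b ∨ k = i) → ¬ unr k → (4 * ln k) ^ 61 < mx i (a, b) := hcon
  -- a rotated mode of maximal length
  have ha0 : a.1.1 ≠ 0 := a.1.2
  have hb0 : b.1.1 ≠ 0 := b.1.2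
  have hi0 : i.1.1 ≠ 0 := i.1.2
  have hmx : mx i (a, b) = max (max (len a.1.1) (len b.1.1)) (len i.1.1) := rfl
  -- for every rotated mode `k`, a rotated mode is not longer
  have main : ∀ (k : Md) (s t : Bool) (u w : Z3), (k = a ∨ k = b ∨ k = i) → ¬ unr k →
      k.1.1 = u + w → npar u w → (EZ s u = 0 ∨ len u ≤ len k.1.1) →
      (EZ t w = 0 ∨ len w ≤ len k.1.1) →
      mx i (a, b) ≤ max (max (len u) (len w)) (len k.1.1) → False := by
    intro k s t u w hk hk1 hk2 hk3 hk4 hk5 hk6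
    have h1 := hlt k hk hk1
    refine three (s := s) (t := t) hk2 k.1.2 hk3 hk4 hk5 ?_
    have h2 : (4 * len k.1.1) ^ 61 < max (max (len u) (len w)) (len k.1.1) :=
      lt_of_lt_of_le h1 hk6
    exact lt_max_iff.1 h2
  -- the three decompositions
  have na : npar i.1.1 (-b.1.1) := by
    intro h
    apply hn
    rw [← hab] at h
    simp only [Pi.add_apply, Pi.neg_apply] at h
    obtain ⟨h1, h2, h3⟩ := h
    refine ⟨by linarith, by linarith, by linarith⟩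
  have nb : npar i.1.1 (-a.1.1) := by
    intro h
    apply hn
    rw [← hab] at h
    simp only [Pi.add_apply, Pi.neg_apply] at h
    obtain ⟨h1, h2, h3⟩ := h
    refine ⟨by linarith, by linarith, by linarith⟩
  have ea : a.1.1 = i.1.1 + -b.1.1 := by rw [← hab]; abel
  have eb : b.1.1 = i.1.1 + -a.1.1 := by rw [← hab]; abel
  have Pa : ¬ unr a → (unr i ∨ len i.1.1 ≤ len a.1.1) → (unr b ∨ len b.1.1 ≤ len a.1.1) → False := by
    intro h1 h2 h3
    refine main a i.2 b.2 i.1.1 (-b.1.1) (Or.inl rfl) h1 ea na h2 ?_ ?_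
    · rw [EZ_neg, len_neg]
      exact h3
    · rw [hmx, len_neg]
      refine max_le (max_le (le_max_right _ _) ?_) ?_
      · exact (le_max_right _ _).trans (le_max_left _ _)
      · exact (le_max_left _ _).trans (le_max_left _ _)
  have Pb : ¬ unr b → (unr i ∨ len i.1.1 ≤ len b.1.1) → (unr a ∨ len a.1.1 ≤ len b.1.1) → False := by
    intro h1 h2 h3
    refine main b i.2 a.2 i.1.1 (-a.1.1) (Or.inr (Or.inl rfl)) h1 eb nb h2 ?_ ?_
    · rw [EZ_neg, len_neg]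
      exact h3
    · rw [hmx, len_neg]
      refine max_le (max_le ?_ (le_max_right _ _)) ?_
      · exact (le_max_right _ _).trans (le_max_left _ _)
      · exact (le_max_left _ _).trans (le_max_left _ _)
  have Pi' : ¬ unr i → (unr a ∨ len a.1.1 ≤ len i.1.1) → (unr b ∨ len b.1.1 ≤ len i.1.1) →
      False := by
    intro h1 h2 h3
    exact main i a.2 b.2 a.1.1 b.1.1 (Or.inr (Or.inr rfl)) h1 hab.symm hn h2 h3 (le_of_eq hmx)
  -- the longest rotated mode
  by_cases ra : unr a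
  · by_cases rb : unr b
    · by_cases ri : unr i
      · exact hr ⟨ra, rb, ri⟩
      · exact Pi' ri (Or.inl ra) (Or.inl rb)
    · by_cases ri : unr i
      · exact Pb rb (Or.inl ri) (Or.inl ra)
      · rcases le_total (len i.1.1) (len b.1.1) with h | h
        · exact Pb rb (Or.inr h) (Or.inl ra)
        · exact Pi' ri (Or.inl ra) (Or.inr h)
  · by_cases rb : unr b
    · by_cases ri : unr i
      · exact Pa ra (Or.inl ri) (Or.inl rb)
      · rcases le_total (len i.1.1) (len a.1.1) with h | h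
        · exact Pa ra (Or.inr h) (Or.inl rb)
        · exact Pi' ri (Or.inr h) (Or.inl rb)
    · by_cases ri : unr i
      · rcases le_total (len b.1.1) (len a.1.1) with h | h
        · exact Pa ra (Or.inl ri) (Or.inr h)
        · exact Pb rb (Or.inl ri) (Or.inr h)
      · rcases le_total (len b.1.1) (len a.1.1) with h | h
        · rcases le_total (len i.1.1) (len a.1.1) with h' | h'
          · exact Pa ra (Or.inr h') (Or.inr h)
          · exact Pi' ri (Or.inr h') (Or.inr (h.trans h'))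
        · rcases le_total (len i.1.1) (len b.1.1) with h' | h'
          · exact Pb rb (Or.inr h') (Or.inr h)
          · exact Pi' ri (Or.inr (h.trans h')) (Or.inr h')

end Pool.Agent.Y492.EP.Ari2
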